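import Mathlib
import Pool.Agent.Helper18.SG.Goals

/-!
Packet SG-P (project of helper18, MP_d3128a_ag): prices for the two-host pattern `nv`.
-/

set_option autoImplicit false

namespace Pool.Agent.Helper40.SG

open Finset Pool.Agent.Helper18.SG Pool.Agent.Helper43.Gm

/-- the slopes of the prices -/
def sl (R t : ℕ) : ℤ := (2 * ((R + 1).factorial : ℤ)) * (2 * (R : ℤ) + 2) ^ (R - t)

/-- the prices -/
def pr (R y : ℕ) : ℤ := ∑ t ∈ range y, sl R t

lemma facC (R : ℕ) : (R : ℤ) + 1 ≤ ((R + 1).factorial : ℤ) := by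
  exact_mod_cast Nat.self_le_factorial (R + 1)

lemma facpos (R : ℕ) : (0 : ℤ) < ((R + 1).factorial : ℤ) := by
  exact_mod_cast Nat.factorial_pos (R + 1)

lemma sl_pos (R t : ℕ) : 0 < sl R t := by
  unfold sl
  have := facpos R
  positivity

lemma sl_anti (R : ℕ) {t t' : ℕ} (h : t ≤ t') : sl R t' ≤ sl R t := by
  unfold sl
  have h0 := facpos R
  apply mul_le_mul_of_nonneg_left _ (by positivity)
  apply pow_le_pow_right₀
  · have : (0 : ℤ) ≤ R := by positivity
    linarith
  · omega

lemma sl_succ (R : ℕ) {t : ℕ} (h : t + 1 ≤ R) : sl R t = (2 * (R : ℤ) + 2) * sl R (t + 1) := by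
  unfold sl
  have : R - t = (R - (t + 1)) + 1 := by omega
  rw [this, pow_succ]
  ring

lemma sl_ge (R t : ℕ) : 2 * ((R + 1).factorial : ℤ) ≤ sl R t := by
  unfold sl
  have h0 := facpos R
  have h1 : (1 : ℤ) ≤ (2 * (R : ℤ) + 2) ^ (R - t) := by
    apply one_le_pow₀
    have : (0 : ℤ) ≤ R := by positivity
    linarith
  nlinarith

lemma pr_sub (R : ℕ) {a b : ℕ} (h : a ≤ b) : pr R b - pr R a = ∑ t ∈ Ico a b, sl R t := by
  unfold pr
  rw [Finset.sum_Ico_eq_sub _ h]

lemma pr_succ (R a : ℕ) : pr R (a + 1) = pr R a + sl R a := by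
  unfold pr
  rw [Finset.sum_range_succ]

/-- values strictly decrease from `s` on -/
lemma dec (R : ℕ) (ε : ℤ) (s : ℕ) (h : ∀ t, s ≤ t → sl R t < ε) :
    ∀ y y', s ≤ y → y < y' → pr R y' - ε * y' < pr R y - ε * y := by
  intro y y' hy hyy
  induction y', hyy using Nat.le_induction with
  | base =>
    rw [pr_succ]
    have := h y hy
    push_cast
    linarith
  | succ k hk ih =>
    rw [pr_succ]
    have := h k (by omega)
    push_cast
    linarith

/-- values strictly increase before `s` -/
lemma inc (R : ℕ) (ε : ℤ) (m : ℕ) (h : ∀ t, t < m → ε < sl R t) :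
    ∀ y' y, y' < y → y ≤ m → pr R y' - ε * y' < pr R y - ε * y := by
  intro y' y hyy hm
  induction y, hyy using Nat.le_induction with
  | base =>
    rw [pr_succ]
    have := h y' (by omega)
    push_cast
    linarith
  | succ k hk ih =>
    rw [pr_succ]
    have := h k (by omega)
    have := ih (by omega)
    push_cast
    linarith

lemma sum_le (R : ℕ) {a b : ℕ} (h : a ≤ b) :
    ∑ t ∈ Ico a b, sl R t ≤ ((b : ℤ) - a) * sl R a := by
  have h1 : ∑ t ∈ Ico a b, sl R t ≤ ∑ t ∈ Ico a b, sl R a := by
    apply Finset.sum_le_sum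
    intro t ht
    exact sl_anti R (Finset.mem_Ico.1 ht).1
  rw [Finset.sum_const, Nat.card_Ico, nsmul_eq_mul, Nat.cast_sub h] at h1
  exact h1

lemma le_sum (R : ℕ) {a b : ℕ} (h : a < b) : sl R a ≤ ∑ t ∈ Ico a b, sl R t := by
  apply Finset.single_le_sum (f := fun t => sl R t)
  · intro t _
    exact (sl_pos R t).le
  · exact Finset.mem_Ico.2 ⟨le_refl _, h⟩

/-- the slope of a point -/
lemma core (R s z : ℕ) (hs : s < R) (hz : s < z) (hzR : z ≤ R) :
    ∃ ε : ℤ, (∀ t, s ≤ t → sl R t < ε) ∧ (∀ t, t + 1 < s → ε < sl R t) ∧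
      (1 ≤ s → pr R (s - 1) - ε * (s - 1 : ℕ) < pr R (z - 1) - ε * (z - 1 : ℕ)) ∧
      (1 ≤ s → pr R z - ε * z < pr R (s - 1) - ε * (s - 1 : ℕ)) ∧
      (2 ≤ s → pr R (s - 2) - ε * (s - 2 : ℕ) < pr R (R - 1) - ε * (R - 1 : ℕ)) := by
  rcases Nat.eq_zero_or_pos s with h0 | h0
  · subst h0
    refine ⟨(2 * (R : ℤ) + 2) * sl R 0, ?_, ?_, ?_, ?_, ?_⟩
    · intro t _
      have h1 := sl_anti R (Nat.zero_le t)
      have h2 := sl_pos R 0
      have h3 : (0 : ℤ) ≤ R := by positivity
      nlinarith
    · intro t ht; omega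
    · intro h; omega
    · intro h; omega
    · intro h; omega
  · obtain ⟨r, rfl⟩ : ∃ r, s = r + 1 := ⟨s - 1, by omega⟩
    obtain ⟨k, rfl⟩ : ∃ k, z = r + 1 + (k + 1) := ⟨z - (r + 1) - 1, by omega⟩
    -- exact division
    have hdiv : ((k : ℤ) + 1) ∣ (pr R (r + (k + 1)) - pr R r) := by
      rw [pr_sub R (by omega)]
      apply Finset.dvd_sum
      intro t _
      unfold sl
      apply Dvd.dvd.mul_right
      apply Dvd.dvd.mul_left
      have : (k + 1) ∣ (R + 1).factorial := Nat.dvd_factorial (by omega) (by omega)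
      exact_mod_cast this
    obtain ⟨q, hq⟩ := hdiv
    have hsum := pr_sub R (show r ≤ r + (k + 1) by omega)
    have hle := sum_le R (show r ≤ r + (k + 1) by omega)
    have hge := le_sum R (show r < r + (k + 1) by omega)
    rw [← hsum, hq] at hle hge
    have hk0 : (0 : ℤ) < (k : ℤ) + 1 := by positivity
    have hqle : q ≤ sl R r := by
      have : ((k : ℤ) + 1) * q ≤ ((k : ℤ) + 1) * sl R r := by
        push_cast at hle
        linarith
      exact le_of_mul_le_mul_left this hk0
    have hsr := sl_succ R (show r + 1 ≤ R by omega)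
    have hp1 := sl_pos R (r + 1)
    have hkR : (k : ℤ) + 1 ≤ R := by
      have : k + 1 ≤ R := by omega
      exact_mod_cast this
    have hqge : 2 * sl R (r + 1) < q := by
      by_contra hcon
      push Not at hcon
      have h1 : ((k : ℤ) + 1) * q ≤ ((k : ℤ) + 1) * (2 * sl R (r + 1)) :=
        mul_le_mul_of_nonneg_left hcon hk0.le
      have h2 : ((k : ℤ) + 1) * (2 * sl R (r + 1)) ≤ R * (2 * sl R (r + 1)) :=
        mul_le_mul_of_nonneg_right hkR (by linarith)
      nlinarith
    refine ⟨q - 1, ?_, ?_, ?_, ?_, ?_⟩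
    · intro t ht
      have := sl_anti R ht
      linarith
    · intro t ht
      have := sl_anti R (show t ≤ r by omega)
      linarith
    · intro _
      have e1 : r + 1 - 1 = r := by omega
      have e2 : r + 1 + (k + 1) - 1 = r + (k + 1) := by omega
      rw [e1, e2]
      have : pr R (r + (k + 1)) = pr R r + ((k : ℤ) + 1) * q := by linarith
      rw [this]
      push_cast
      nlinarith
    · intro _
      have e1 : r + 1 - 1 = r := by omega
      have e2 : r + 1 + (k + 1) = (r + (k + 1)) + 1 := by omega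
      rw [e1, e2, pr_succ]
      have : pr R (r + (k + 1)) = pr R r + ((k : ℤ) + 1) * q := by linarith
      rw [this]
      have h3 := sl_anti R (show r + 1 ≤ r + (k + 1) by omega)
      have h4 := sl_ge R (r + 1)
      have h5 := facC R
      push_cast
      nlinarith
    · intro h2
      obtain ⟨r', rfl⟩ : ∃ r', r = r' + 1 := ⟨r - 1, by omega⟩
      have e1 : r' + 1 + 1 - 2 = r' := by omega
      rw [e1]
      have h6 := pr_sub R (show r' ≤ R - 1 by omega)
      have h7 := le_sum R (show r' < R - 1 by omega)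
      have h8 := sl_succ R (show r' + 1 ≤ R by omega)
      have hp := sl_pos R (r' + 1)
      have h9 : ((R - 1 : ℕ) : ℤ) - (r' : ℤ) ≤ R := by
        have : ((R - 1 : ℕ) : ℤ) = (R : ℤ) - 1 := by
          rw [Nat.cast_sub (by omega)]; simp
        rw [this]
        have : (0 : ℤ) ≤ r' := by positivity
        linarith
      have h10 : (0 : ℤ) ≤ ((R - 1 : ℕ) : ℤ) - (r' : ℤ) := by
        have : r' ≤ R - 1 := by omega
        have : (r' : ℤ) ≤ ((R - 1 : ℕ) : ℤ) := by exact_mod_cast this
        linarith
      have h11 : (q - 1) * (((R - 1 : ℕ) : ℤ) - (r' : ℤ)) ≤ sl R (r' + 1) * R := by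
        apply mul_le_mul (by linarith) h9 h10 hp.le
      have h12 : (0 : ℤ) ≤ R := by positivity
      nlinarith

/-- Packet P. -/
theorem goalP : GoalP := by
  intro R N ν s z h
  have hc : ∀ c, ∃ ε : ℤ, c < N → ((∀ t, s c ≤ t → sl R t < ε) ∧
      (∀ t, t + 1 < s c → ε < sl R t) ∧
      (1 ≤ s c → pr R (s c - 1) - ε * (s c - 1 : ℕ) < pr R (z c - 1) - ε * (z c - 1 : ℕ)) ∧
      (1 ≤ s c → pr R (z c) - ε * (z c) < pr R (s c - 1) - ε * (s c - 1 : ℕ)) ∧
      (2 ≤ s c → pr R (s c - 2) - ε * (s c - 2 : ℕ) < pr R (R - 1) - ε * (R - 1 : ℕ))) := by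
    intro c
    by_cases hcN : c < N
    · obtain ⟨ε, hε⟩ := core R (s c) (z c) (h c hcN).1 (h c hcN).2.1 (h c hcN).2.2
      exact ⟨ε, fun _ => hε⟩
    · exact ⟨0, fun h => absurd h hcN⟩
  choose ε hε using hc
  refine ⟨pr R, ε, ?_⟩
  intro c hcN y hy hpos
  obtain ⟨hsR, hsz, hzR⟩ := h c hcN
  obtain ⟨h1, h2, h3, h4, h5⟩ := hε c hcN
  have hdec := dec R (ε c) (s c) h1
  have hinc := inc R (ε c) (s c - 1) (fun t ht => h2 t (by omega))
  have hlow : ∀ y', y' + 1 < s c → ∀ y, s c ≤ y → y < R →
      pr R y' - ε c * y' < pr R y - ε c * y := by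
    intro y' hy' y hy hyR
    have a1 : pr R y' - ε c * y' ≤ pr R (s c - 2) - ε c * (s c - 2 : ℕ) := by
      rcases Nat.lt_or_ge y' (s c - 2) with hl | hl
      · exact (hinc y' (s c - 2) hl (by omega)).le
      · have : y' = s c - 2 := by omega
        rw [this]
    have a2 : pr R (R - 1) - ε c * (R - 1 : ℕ) ≤ pr R y - ε c * y := by
      rcases Nat.lt_or_ge y (R - 1) with hl | hl
      · exact (hdec y (R - 1) hy hl).le
      · have : y = R - 1 := by omega
        rw [this]
    have a3 := h5 (by omega)
    linarith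
  simp only [] at hpos
  unfold nv at hpos
  by_cases hsy : s c ≤ y
  · rw [if_pos hsy] at hpos
    by_cases hzy : z c ≤ y
    · rw [if_pos hzy] at hpos
      refine ⟨Finset.Ico (s c - 1) y, ?_, ?_, ?_⟩
      · simp
      · simp only [Nat.card_Ico]
        unfold nv
        rw [if_pos hsy, if_pos hzy]
        omega
      · intro y' hy'R hy'U hne
        simp only [Finset.mem_Ico, not_and, not_lt] at hy'U
        rcases Nat.lt_or_ge y' (s c - 1) with hl | hl
        · exact hlow y' (by omega) y hsy hy
        · have := hy'U hl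
          exact hdec y y' hsy (by omega)
    · rw [if_neg hzy] at hpos
      refine ⟨Finset.Ico (s c) y, ?_, ?_, ?_⟩
      · simp
      · simp only [Nat.card_Ico]
        unfold nv
        rw [if_pos hsy, if_neg hzy]
        omega
      · intro y' hy'R hy'U hne
        simp only [Finset.mem_Ico, not_and, not_lt] at hy'U
        rcases Nat.lt_or_ge y' (s c) with hl | hl
        · rcases Nat.lt_or_ge (y' + 1) (s c) with hl2 | hl2
          · exact hlow y' hl2 y hsy hy
          · have hy'e : y' = s c - 1 := by omega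
            have a1 := h3 (by omega)
            have a2 : pr R (z c - 1) - ε c * (z c - 1 : ℕ) ≤ pr R y - ε c * y := by
              rcases Nat.lt_or_ge y (z c - 1) with hl3 | hl3
              · exact (hdec y (z c - 1) hsy hl3).le
              · have : y = z c - 1 := by omega
                rw [this]
            rw [hy'e]
            linarith
        · have := hy'U hl
          exact hdec y y' hsy (by omega)
  · rw [if_neg hsy] at hpos
    by_cases hys : y + 1 = s c
    · rw [if_pos hys] at hpos
      refine ⟨Finset.Ico (s c) (z c), ?_, ?_, ?_⟩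
      · simp only [Finset.mem_Ico, not_and, not_lt]
        intro h; omega
      · simp only [Nat.card_Ico]
        unfold nv
        rw [if_neg hsy, if_pos hys]
        omega
      · intro y' hy'R hy'U hne
        simp only [Finset.mem_Ico, not_and, not_lt] at hy'U
        have hye : y = s c - 1 := by omega
        rcases Nat.lt_or_ge y' (s c) with hl | hl
        · exact hinc y' y (by omega) (by omega)
        · have hzy' := hy'U hl
          have a1 := h4 (by omega)
          have a2 : pr R y' - ε c * y' ≤ pr R (z c) - ε c * (z c) := by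
            rcases Nat.lt_or_ge (z c) y' with hl3 | hl3
            · exact (hdec (z c) y' (by omega) hl3).le
            · have : y' = z c := by omega
              rw [this]
          rw [hye]
          linarith
    · rw [if_neg hys] at hpos
      refine ⟨Finset.Ico (y + 1) R, ?_, ?_, ?_⟩
      · simp
      · simp only [Nat.card_Ico]
        unfold nv
        rw [if_neg hsy, if_neg hys]
        omega
      · intro y' hy'R hy'U hne
        simp only [Finset.mem_Ico, not_and, not_lt] at hy'U
        have : y' < y := by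
          by_contra hcon
          push Not at hcon
          have := hy'U (by omega)
          omega
        exact hinc y' y this (by omega)

end Pool.Agent.Helper40.SG
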