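import Pool.Agent.Helper52.SG.Goals

/-!
# Project SG (MP_0a002a_al): packet END
-/

set_option autoImplicit false

namespace Pool.Agent.Helper40.SG.END

open Subgroup Pool.H83Shunkov Pool.Agent.Helper29.SH

theorem t (hCOR : Pool.Agent.Helper52.SG.S_COR) (hILF : Pool.Agent.Helper52.SG.S_ILF)
    (hLGS : Pool.Agent.Helper52.SG.S_LGS) : Pool.Agent.Helper52.SG.S_END := by
  intro G _ hS hT hL a hp h2
  by_cases hfin : (Tor (centralizer ({a} : Set G))).Finite
  · exact hCOR G a hS hT hL hp h2 hfin
  · have hinj : Function.Injective (centralizer ({a} : Set G)).subtype := subtype_injective _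
    have hSC : IsShunkov (centralizer ({a} : Set G)) := h_SSUB G _ _ hinj hS
    have hLC : Pool.Agent.Helper52.SG.LG (centralizer ({a} : Set G)) := hLGS G _ _ hinj hL
    have hTC : InfTor (centralizer ({a} : Set G)) := by
      intro hf
      apply hfin
      refine (hf.image (fun x : centralizer ({a} : Set G) => (x : G))).subset ?_
      rintro t ⟨ht1, ht2⟩
      refine ⟨⟨t, ht1⟩, ?_, rfl⟩
      show IsOfFinOrder (⟨t, ht1⟩ : centralizer ({a} : Set G))
      rw [← Submonoid.isOfFinOrder_coe]
      exact ht2
    obtain ⟨L, -, hLinf, hLF⟩ := hILF _ hSC hTC hLC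
    have hLF' : IsLocFin (L.map (centralizer ({a} : Set G)).subtype) := hLF.map _
    have hcomm : ∀ k ∈ L.map (centralizer ({a} : Set G)).subtype, k * a = a * k := by
      rintro _ ⟨y, -, rfl⟩
      exact (mem_centralizer_singleton_iff.1 y.2)
    have hinv : Inv a (L.map (centralizer ({a} : Set G)).subtype) := by
      intro k hk
      have e : a⁻¹ * k * a = k := by
        rw [mul_assoc, hcomm k hk]
        group
      rw [e]
      exact hk
    have hao : IsOfFinOrder a := by
      rw [← orderOf_pos_iff]
      exact hp.pos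
    refine ⟨L.map (centralizer ({a} : Set G)).subtype ⊔ zpowers a, ?_, ?_,
      h_LFA G a _ hao hinv hLF'⟩
    · exact (le_sup_right : zpowers a ≤ _) (mem_zpowers a)
    · have h3 : ((L.map (centralizer ({a} : Set G)).subtype : Subgroup G) : Set G).Infinite :=
        hLinf.image (Set.injOn_of_injective hinj)
      exact h3.mono (SetLike.coe_subset_coe.2 le_sup_left)

end Pool.Agent.Helper40.SG.END
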