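import Pool.Agent.Helper52.SG.Goals2

/-!
# Project SG (MP_0a002a_al): packet FPA
-/

set_option autoImplicit false

namespace Pool.Agent.Helper40.SG.FPA

open Subgroup Pool.H83Shunkov Pool.Agent.Helper29.SH

/-- if some Sylow subgroup is normal then all are -/
theorem all_normal {G : Type} [Group G] [Finite G] {q : ℕ} [Fact q.Prime] (P : Sylow q G)
    (h : (P : Subgroup G).Normal) (Q : Sylow q G) : (Q : Subgroup G).Normal := by
  have hu := Sylow.unique_of_normal P h
  have : Q = P := (hu.uniq Q).trans (hu.uniq P).symm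
  rw [this]
  exact h

/-- an element of prime power order lies in a normal Sylow subgroup -/
theorem mem_normal {G : Type} [Group G] [Finite G] {q : ℕ} [Fact q.Prime] (P : Sylow q G)
    (h : (P : Subgroup G).Normal) {x : G} {n : ℕ} (hx : x ^ q ^ n = 1) : x ∈ (P : Subgroup G) := by
  have h1 : IsPGroup q (zpowers x) := by
    rintro ⟨y, hy⟩
    obtain ⟨k, rfl⟩ := mem_zpowers_iff.1 hy
    refine ⟨n, ?_⟩
    apply Subtype.ext
    show (x ^ k) ^ q ^ n = 1
    rw [← zpow_natCast, ← zpow_mul, mul_comm, zpow_mul, zpow_natCast, hx, one_zpow]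
  obtain ⟨Q, hQ⟩ := h1.exists_le_sylow
  have hu := Sylow.unique_of_normal P h
  have : Q = P := (hu.uniq Q).trans (hu.uniq P).symm
  rw [← this]
  exact hQ (mem_zpowers x)

/-- the nontrivial characteristic `r`-subgroup of a nilpotent group -/
theorem exists_Nr {M : Type} [Group M] (N : Subgroup M) (hfin : (N : Set M).Finite) (hN : N ≠ ⊥)
    (hnil : Group.IsNilpotent N) : ∃ (r : ℕ) (R : Subgroup M), r.Prime ∧ R ≤ N ∧ R ≠ ⊥ ∧
      IsPGroup r R ∧ ∀ x ∈ N, ∀ n : ℕ, x ^ r ^ n = 1 → x ∈ R := by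
  haveI : Finite N := hfin
  haveI := hnil
  have hcard : Nat.card N ≠ 1 := by
    intro h
    exact hN (Subgroup.card_eq_one.1 h)
  obtain ⟨r, hr, hrd⟩ := Nat.exists_prime_and_dvd hcard
  haveI : Fact r.Prime := ⟨hr⟩
  obtain ⟨P⟩ : Nonempty (Sylow r N) := Sylow.nonempty
  have hPn : (P : Subgroup N).Normal := inferInstance
  have hmem : ∀ x ∈ N, ∀ n : ℕ, x ^ r ^ n = 1 → x ∈ (P : Subgroup N).map N.subtype := by
    intro x hx n hxn
    refine ⟨⟨x, hx⟩, ?_, rfl⟩
    refine mem_normal P hPn (n := n) ?_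
    apply Subtype.ext
    exact hxn
  refine ⟨r, (P : Subgroup N).map N.subtype, hr, ?_, ?_, P.2.map _, hmem⟩
  · rintro _ ⟨y, -, rfl⟩
    exact y.2
  · intro hbot
    obtain ⟨x, hx⟩ := exists_prime_orderOf_dvd_card' (G := N) r hrd
    have h1 : (x : M) ∈ (P : Subgroup N).map N.subtype := by
      refine hmem x x.2 1 ?_
      rw [pow_one, ← hx, ← Subgroup.orderOf_coe, pow_orderOf_eq_one]
    rw [hbot, mem_bot] at h1
    have h2 : x = 1 := Subtype.ext h1
    rw [h2, orderOf_one] at hx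
    exact hr.one_lt.ne hx

theorem t : Pool.Agent.Helper52.SG.S_FPA := by
  intro M _ a K N p hp hap hKf hKa hKF hNK hNb hNa hNK' hNn hind
  haveI : Finite K := hKf
  have hNf : (N : Set M).Finite := hKf.subset hNK
  obtain ⟨r, R, hr, hRN, hRb, hRp, hRmem⟩ := exists_Nr N hNf hNb hNn
  haveI : Fact r.Prime := ⟨hr⟩
  have hRK : R ≤ K := hRN.trans hNK
  have hRf : (R : Set M).Finite := hKf.subset hRK
  have hpow : ∀ x ∈ R, ∃ n : ℕ, x ^ r ^ n = 1 := by
    intro x hx
    obtain ⟨n, hn⟩ := hRp ⟨x, hx⟩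
    exact ⟨n, congrArg Subtype.val hn⟩
  have hconj : ∀ (g x : M) (n : ℕ), x ^ n = 1 → (g⁻¹ * x * g) ^ n = 1 := by
    intro g x n h
    have h1 : (g⁻¹ * x * g) ^ n = g⁻¹ * x ^ n * g := by
      have := conj_pow (i := n) (a := g⁻¹) (b := x)
      rwa [inv_inv] at this
    rw [h1, h]
    group
  have hRa : Inv a R := by
    intro x hx
    obtain ⟨n, hn⟩ := hpow x hx
    exact hRmem _ (hNa x (hRN hx)) n (hconj a x _ hn)
  have hRK' : ∀ k ∈ K, ∀ x ∈ R, k⁻¹ * x * k ∈ R := by
    intro k hk x hx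
    obtain ⟨n, hn⟩ := hpow x hx
    exact hRmem _ (hNK' k hk x (hRN hx)) n (hconj k x _ hn)
  haveI hnor : (R.subgroupOf K).Normal := by
    constructor
    rintro ⟨x, hxK⟩ hx ⟨g, hg⟩
    rw [mem_subgroupOf] at hx ⊢
    have := hRK' g⁻¹ (inv_mem hg) x hx
    rwa [inv_inv] at this
  haveI hQ : Group.IsNilpotent (K ⧸ R.subgroupOf K) := hind R hRK hRb hRa hRK'
  refine (Group.isNilpotent_of_finite_tfae.out 0 3 rfl rfl).2 ?_
  intro q hq P'
  obtain ⟨S, hSK, hScard, hSa⟩ := h_SYE M a K p q hKf hKa hKF hp hap hq.out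
  have hSf : (S : Set M).Finite := hKf.subset hSK
  have hcard : Nat.card (S.subgroupOf K) = q ^ (Nat.card K).factorization q := by
    rw [← hScard]
    exact Nat.card_congr (subgroupOfEquivOfLe hSK).toEquiv
  have hSp : IsPGroup q S := IsPGroup.of_card hScard
  refine all_normal (Sylow.ofCard (S.subgroupOf K) hcard) ?_ P'
  set P : Sylow q K := Sylow.ofCard (S.subgroupOf K) hcard with hPdef
  have hPS : (P : Subgroup K) = S.subgroupOf K := rfl
  -- the image of P is normal in the quotient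
  have hsurj : Function.Surjective (QuotientGroup.mk' (R.subgroupOf K)) :=
    QuotientGroup.mk'_surjective _
  have hPn : ((P.mapSurjective hsurj : Sylow q (K ⧸ R.subgroupOf K)) :
      Subgroup (K ⧸ R.subgroupOf K)).Normal := inferInstance
  rw [Sylow.coe_mapSurjective] at hPn
  -- conjugates of elements of P are in P R
  have key : ∀ x ∈ (P : Subgroup K), ∀ g : K, ∃ s ∈ S, ∃ n ∈ R,
      ((g * x * g⁻¹ : K) : M) = s * n := by
    intro x hx g
    have h1 : (QuotientGroup.mk' (R.subgroupOf K)) (g * x * g⁻¹) ∈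
        (P : Subgroup K).map (QuotientGroup.mk' (R.subgroupOf K)) := by
      rw [map_mul, map_mul, map_inv]
      exact hPn.conj_mem _ (mem_map_of_mem _ hx) _
    obtain ⟨s, hs, hse⟩ := h1
    have h2 : s⁻¹ * (g * x * g⁻¹) ∈ R.subgroupOf K := QuotientGroup.eq.1 hse
    rw [mem_subgroupOf] at h2
    have hs' : (s : M) ∈ S := hs
    refine ⟨s, hs', _, h2, ?_⟩
    push_cast
    group
  constructor
  intro x hx g
  obtain ⟨s, hs, n, hn, he⟩ := key x hx g
  rw [hPS, mem_subgroupOf, he]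
  by_cases hqr : q = r
  · -- the group R S is an r-group
    subst hqr
    have hRS : IsPGroup q (R.subgroupOf K) := hRp.comap_subtype
    have hsup : IsPGroup q ((P : Subgroup K) ⊔ R.subgroupOf K : Subgroup K) :=
      P.2.to_sup_of_normal_right hRS
    have h3 : (P : Subgroup K) ⊔ R.subgroupOf K = (P : Subgroup K) := P.3 hsup le_sup_left
    have h4 : R.subgroupOf K ≤ (P : Subgroup K) := by
      rw [← h3]
      exact le_sup_right
    have h5 : n ∈ S := by
      have : (⟨n, hRK hn⟩ : K) ∈ (P : Subgroup K) := h4 (by rw [mem_subgroupOf]; exact hn)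
      exact this
    exact mul_mem hs h5
  · -- coprime case
    have hqR : ¬ q ∣ Nat.card R := by
      intro hd
      haveI : Finite R := hRf
      obtain ⟨m, hm⟩ := IsPGroup.iff_card.1 hRp
      rw [hm] at hd
      exact hqr ((Nat.prime_dvd_prime_iff_eq hq.out hr).1 (hq.out.dvd_of_dvd_pow hd))
    have hcomm : ∀ v ∈ S, ∀ e ∈ R, v * e = e * v :=
      h_FROB M a R S p q hp hq.out hap hRf hSf hSp hqR hRa hSa
        (fun k hk => hKF k (hRK hk)) (fun k hk => hKF k (hSK hk))
        (fun v hv e he => hRK' v (hSK hv) e he)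
    have hsn : Commute s n := hcomm s hs n hn
    -- powers
    obtain ⟨i, hi⟩ := hSp ⟨s, hs⟩
    have hi' : s ^ q ^ i = 1 := congrArg Subtype.val hi
    obtain ⟨j, hj⟩ := hSp ⟨x, hx⟩
    have hj' : (x : M) ^ q ^ j = 1 := congrArg Subtype.val hj
    obtain ⟨l, hl⟩ := hpow n hn
    have hy : (s * n) ^ q ^ j = 1 := by
      rw [← he]
      push_cast
      have := hconj (g : M)⁻¹ (x : M) _ hj'
      rwa [inv_inv] at this
    have hn1 : n ^ q ^ (i + j) = 1 := by
      have h6 : (s * n) ^ q ^ (i + j) = 1 := by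
        rw [pow_add, mul_comm, pow_mul, hy, one_pow]
      have h7 : s ^ q ^ (i + j) = 1 := by
        rw [pow_add, pow_mul, hi', one_pow]
      rw [hsn.mul_pow, h7, one_mul] at h6
      exact h6
    have hcop : Nat.Coprime (q ^ (i + j)) (r ^ l) :=
      Nat.Coprime.pow _ _ ((Nat.coprime_primes hq.out hr).2 hqr)
    have hn2 : n = 1 := by
      have h8 : orderOf n ∣ Nat.gcd (q ^ (i + j)) (r ^ l) :=
        Nat.dvd_gcd (orderOf_dvd_of_pow_eq_one hn1) (orderOf_dvd_of_pow_eq_one hl)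
      rw [hcop, Nat.dvd_one] at h8
      exact orderOf_eq_one_iff.1 h8
    rw [hn2, mul_one]
    exact hs

end Pool.Agent.Helper40.SG.FPA
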