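import Pool.Agent.Helper52.SG.Goals3

/-!
# Project SG (MP_0a002a_al): packet LFFP
-/

set_option autoImplicit false

namespace Pool.Agent.Helper40.SG.LFFP

open Subgroup Pool.H83Shunkov Pool.Agent.Helper29.SH

/-- if the lower central series is stationary at `n` -/
theorem lcs_stable {E : Type} [Group E] (B : Subgroup E) (n : ℕ)
    (h : B.lowerCentralSeries n ≤ B.lowerCentralSeries (n + 1)) (m : ℕ) :
    B.lowerCentralSeries n ≤ B.lowerCentralSeries (n + m) := by
  induction m with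
  | zero => exact le_rfl
  | succ m ih =>
    refine h.trans ?_
    rw [← add_assoc, Subgroup.lowerCentralSeries_succ, Subgroup.lowerCentralSeries_succ]
    exact commutator_mono ih le_rfl

/-- the automorphism `x ↦ a⁻¹ x a` of `B` -/
def aut {E : Type} [Group E] (a : E) (B : Subgroup E) (h1 : ∀ x ∈ B, a⁻¹ * x * a ∈ B)
    (h2 : ∀ x ∈ B, a * x * a⁻¹ ∈ B) : MulAut B where
  toFun x := ⟨a⁻¹ * x * a, h1 x x.2⟩
  invFun x := ⟨a * x * a⁻¹, h2 x x.2⟩
  left_inv x := by
    apply Subtype.ext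
    show a * (a⁻¹ * x * a) * a⁻¹ = x
    group
  right_inv x := by
    apply Subtype.ext
    show a⁻¹ * (a * x * a⁻¹) * a = x
    group
  map_mul' x y := by
    apply Subtype.ext
    show a⁻¹ * (x * y) * a = (a⁻¹ * x * a) * (a⁻¹ * y * a)
    group

theorem aut_pow {E : Type} [Group E] (a : E) (B : Subgroup E) (h1 : ∀ x ∈ B, a⁻¹ * x * a ∈ B)
    (h2 : ∀ x ∈ B, a * x * a⁻¹ ∈ B) (j : ℕ) (x : B) :
    (((aut a B h1 h2) ^ j) x : E) = (a ^ j)⁻¹ * x * a ^ j := by
  induction j with
  | zero => simp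
  | succ j ih =>
    rw [pow_succ']
    show a⁻¹ * (((aut a B h1 h2) ^ j) x : E) * a = _
    rw [ih, pow_succ]
    group

theorem tele {E : Type} [Group E] (c : ℕ → E) (n : ℕ) :
    ((List.range n).map fun j => (c j)⁻¹ * c (j + 1)).prod = (c 0)⁻¹ * c n := by
  induction n with
  | zero => simp
  | succ n ih =>
    rw [List.range_succ, List.map_append, List.prod_append, ih]
    simp

theorem t (hFPN : Pool.Agent.Helper52.SG.S_FPN) (hHIG : Pool.Agent.Helper52.SG.S_HIG)
    (hFGT : Pool.Agent.Helper52.SG.S_FGT) : Pool.Agent.Helper52.SG.S_LFFP := by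
  intro E _ a F p hp hap hFa hFF hloc hRF S hSF
  have hao : IsOfFinOrder a := isOfFinOrder_iff_pow_eq_one.2 ⟨p, hp.pos, hap⟩
  have hzf : ((zpowers a : Subgroup E) : Set E).Finite := hao.finite_zpowers
  -- `F` is invariant under conjugation by the powers of `a`
  have hFpow : ∀ (j : ℕ), ∀ x ∈ F, (a ^ j)⁻¹ * x * a ^ j ∈ F := by
    intro j
    induction j with
    | zero => intro x hx; simpa using hx
    | succ j ih =>
      intro x hx
      have h1 := hFa _ (ih x hx)
      have e : a⁻¹ * ((a ^ j)⁻¹ * x * a ^ j) * a = (a ^ (j + 1))⁻¹ * x * a ^ (j + 1) := by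
        rw [pow_succ]
        group
      rwa [e] at h1
  have hFz : ∀ z ∈ zpowers a, ∀ x ∈ F, z⁻¹ * x * z ∈ F := by
    intro z hz x hx
    obtain ⟨j, rfl⟩ := hao.mem_powers_iff_mem_zpowers.2 hz
    exact hFpow j x hx
  -- the group `B`
  set T : Set E := (fun q : E × E => q.2⁻¹ * q.1 * q.2) '' ((S : Set E) ×ˢ (zpowers a : Set E))
    with hT
  have hTf : T.Finite := (S.finite_toSet.prod hzf).image _
  set B : Subgroup E := closure T with hB
  have hST : (S : Set E) ⊆ T := by
    intro s hs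
    refine ⟨(s, 1), ⟨hs, one_mem _⟩, ?_⟩
    simp
  have hSB : closure (S : Set E) ≤ B := closure_mono hST
  have hBF : B ≤ F := by
    rw [hB, closure_le]
    rintro _ ⟨⟨s, z⟩, ⟨hs, hz⟩, rfl⟩
    exact hFz z hz s (hSF hs)
  have hBz : ∀ z ∈ zpowers a, ∀ x ∈ B, z⁻¹ * x * z ∈ B := by
    intro z hz x hx
    induction hx using closure_induction with
    | mem x hx =>
      obtain ⟨⟨s, y⟩, ⟨hs, hy⟩, rfl⟩ := hx
      refine subset_closure ⟨(s, y * z), ⟨hs, mul_mem hy hz⟩, ?_⟩
      show (y * z)⁻¹ * s * (y * z) = z⁻¹ * (y⁻¹ * s * y) * z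
      group
    | one =>
      have : z⁻¹ * 1 * z = 1 := by group
      rw [this]
      exact one_mem _
    | mul x y _ _ hx hy =>
      have : z⁻¹ * (x * y) * z = (z⁻¹ * x * z) * (z⁻¹ * y * z) := by group
      rw [this]
      exact mul_mem hx hy
    | inv x _ hx =>
      have : z⁻¹ * x⁻¹ * z = (z⁻¹ * x * z)⁻¹ := by group
      rw [this]
      exact inv_mem hx
  have h1 : ∀ x ∈ B, a⁻¹ * x * a ∈ B := hBz a (mem_zpowers a)
  have h2 : ∀ x ∈ B, a * x * a⁻¹ ∈ B := by
    intro x hx
    have := hBz a⁻¹ (inv_mem (mem_zpowers a)) x hx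
    rwa [inv_inv] at this
  -- the elements of `B`
  have hel : ∀ x ∈ B, IsOfFinOrder x ∧ ¬ p ∣ orderOf x ∧ ∃ k : E, x = k⁻¹ * (a⁻¹ * k * a) := by
    intro x hx
    obtain ⟨K, hKF, hKf, hKa, hxK⟩ := hloc x (hBF hx)
    have hKFPF : FPF a K := fun k hk => hFF k (hKF hk)
    haveI : Finite K := hKf
    have hdvd : orderOf x ∣ Nat.card K := by
      have := orderOf_dvd_natCard (⟨x, hxK⟩ : K)
      rwa [Subgroup.orderOf_mk] at this
    have hcard : ¬ p ∣ Nat.card K := h_CARD E a K p hKf hKa hKFPF hp hap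
    refine ⟨?_, fun h => hcard (h.trans hdvd), ?_⟩
    · have h3 : IsOfFinOrder (⟨x, hxK⟩ : K) := isOfFinOrder_of_finite _
      rwa [← Submonoid.isOfFinOrder_coe] at h3
    · obtain ⟨k, -, hk⟩ := h_BIJ E a K hKf hKa hKFPF x⁻¹ (inv_mem hxK)
      refine ⟨k, ?_⟩
      rw [← inv_inv x, hk]
      group
  have hHB : ∃ n : ℕ, Pool.Agent.Helper52.SG.Gm B n ≤ Pool.Agent.Helper52.SG.Gm B (n + 1) := by
    refine hHIG B (aut a B h1 h2) p hp ?_ ?_ ?_
    · ext x
      rw [aut_pow, hap]
      simp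
    · intro x
      apply Subtype.ext
      obtain ⟨-, -, k, hk⟩ := hel x x.2
      rw [Subgroup.val_list_prod, List.map_map]
      have h3 : ((List.range p).map ((fun y : B => (y : E)) ∘ fun j => ((aut a B h1 h2) ^ j) x)) =
          (List.range p).map fun j => ((a ^ j)⁻¹ * k * a ^ j)⁻¹ *
            ((a ^ (j + 1))⁻¹ * k * a ^ (j + 1)) := by
        apply List.map_congr_left
        intro j _
        show (((aut a B h1 h2) ^ j) x : E) = _
        rw [aut_pow, hk, pow_succ]
        group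
      have h4 := tele (fun j => (a ^ j)⁻¹ * k * a ^ j) p
      have h5 : ((List.range p).map ((fun y : B => (y : E)) ∘
          fun j => ((aut a B h1 h2) ^ j) x)).prod = 1 := by
        rw [h3, h4, hap]
        simp
      exact h5
    · intro x
      obtain ⟨h3, h4, -⟩ := hel x x.2
      refine ⟨?_, ?_⟩
      · rwa [← Submonoid.isOfFinOrder_coe]
      · rwa [← Subgroup.orderOf_coe]
  obtain ⟨n, hn⟩ := hHB
  have hn' : B.lowerCentralSeries n ≤ B.lowerCentralSeries (n + 1) := by
    have e := Subgroup.top_subtype_lowerCentralSeries B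
    rw [← e n, ← e (n + 1)]
    exact map_mono hn
  have hbot : B.lowerCentralSeries n = ⊥ := by
    rw [eq_bot_iff]
    intro x hx
    by_contra hxb
    obtain ⟨M, hM, hMf, -, hxM⟩ := hRF x hxb
    haveI := hM
    haveI := hMf
    haveI : Finite (E ⧸ M) := finiteIndex_iff_finite_quotient.1 hMf
    have hnil : Group.IsNilpotent (B.map (QuotientGroup.mk' M)) := by
      refine hFPN (E ⧸ M) (QuotientGroup.mk' M a) (B.map (QuotientGroup.mk' M)) p hp ?_
        (Set.toFinite _) ?_ ?_
      · rw [← map_pow, hap, map_one]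
      · rintro _ ⟨b, hb, rfl⟩
        refine ⟨a⁻¹ * b * a, h1 b hb, ?_⟩
        rw [map_mul, map_mul, map_inv]
      · rintro _ ⟨b, hb, rfl⟩ hcomm
        have h3 : a⁻¹ * b * a * b⁻¹ ∈ M := by
          rw [← QuotientGroup.eq_one_iff]
          show (QuotientGroup.mk' M) (a⁻¹ * b * a * b⁻¹) = 1
          rw [map_mul, map_mul, map_mul, map_inv, map_inv, mul_assoc (_⁻¹), hcomm]
          group
        have h4 : b ∈ M := h_LIFT E a M F hloc hFF b (hBF hb) h3
        exact (QuotientGroup.eq_one_iff b).2 h4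
    obtain ⟨m, hm⟩ := (isNilpotent_iff_lowerCentralSeries _).1 hnil
    apply hxM
    have h5 : x ∈ B.lowerCentralSeries (n + m) := lcs_stable B n hn' m hx
    have h6 : x ∈ B.lowerCentralSeries m :=
      B.lowerCentralSeries_antitone (Nat.le_add_left m n) h5
    have h7 : QuotientGroup.mk' M x ∈ (B.lowerCentralSeries m).map (QuotientGroup.mk' M) :=
      mem_map_of_mem _ h6
    rw [map_lowerCentralSeries, hm, mem_bot] at h7
    exact (QuotientGroup.eq_one_iff x).1 h7
  have hBnil : Group.IsNilpotent B := (isNilpotent_iff_lowerCentralSeries _).2 ⟨n, hbot⟩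
  have hBlf : IsLocFin (⊤ : Subgroup B) := by
    refine hFGT B hBnil ?_
    intro x
    rw [← Submonoid.isOfFinOrder_coe]
    exact (hel x x.2).1
  have hBfg : (⊤ : Subgroup B).FG := by
    have h8 : B.FG := ⟨hTf.toFinset, by rw [hTf.coe_toFinset]⟩
    have h9 : Group.FG B := (Group.fg_iff_subgroup_fg B).2 h8
    exact h9.out
  have hBfin : Finite B := by
    have := hBlf.finite_of_fg hBfg
    exact Set.finite_univ_iff.1 this
  exact (Set.toFinite (B : Set E)).subset hSB

end Pool.Agent.Helper40.SG.LFFP
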